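import Pool.Agent.Lib.MP_719972_lc.Final

namespace Pool.Agent.Results.MP_719972_lc.Main

open Pool.Agent.Lib.MP_719972_lc

universe u

/-- There is a proper forcing that fully separates the extended diagram. -/
theorem result : ∃ (B : Type) (_ : CompleteBooleanAlgebra B), Nontrivial B ∧ IsProper.{u} B ∧
    (∀ X : Node, ⨆ x : Name B, X.val x = ⊤) ∧
    ∀ X Y : Node, ¬ Relation.ReflTransGen Arrow X Y →
      ⨆ x : Name B, X.val x ⊓ (Y.val x)ᶜ = ⊤ := main

end Pool.Agent.Results.MP_719972_lc.Main
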